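import Pool.Agent.AmW.Greedy
import Pool.Agent.AmS.Comb

/-! INVARIANT WEIGHTS (helper35): if no four groups with an admissible pattern exist, a third of the mass of
every sufficiently invariant weight is good. -/

set_option autoImplicit false

namespace Pool.Agent.AmW

open Finset Pool.Agent.AmS

variable {α : Type} [DecidableEq α]

/-- the fibres of a set -/
theorem ms_fib (Φ : Finset α) (w : α → ℝ) (typ : α → R3) (M : Finset R3) (hM : ∀ s ∈ Φ, typ s ∈ M)
    (P : α → Prop) : ms Φ w P = ∑ m ∈ M, ms Φ w (fun s => typ s = m ∧ P s) := by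
  classical
  rw [ms_eq, ← Finset.sum_fiberwise_of_maps_to (g := typ) (t := M) (fun s hs => hM s (Finset.mem_filter.1 hs).1)]
  refine Finset.sum_congr rfl fun m _ => ?_
  rw [ms_eq, Finset.filter_filter]
  congr 1
  ext s
  simp only [Finset.mem_filter]
  tauto

theorem ms_true (Φ : Finset α) (w : α → ℝ) : ms Φ w (fun _ => True) = ∑ s ∈ Φ, w s := by
  classical
  rw [ms_eq, Finset.filter_true]

/-- transport of the mass of a fibre -/
theorem ms_shift (op : α → α → α) (S : Set α)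
    (hcan : ∀ s ∈ S, ∀ s' ∈ S, ∀ g ∈ S, op s g = op s' g → s = s') (F : Finset α) (δ : ℝ) (Φ : Finset α)
    (w : α → ℝ) (hΦ : Inv op S F δ Φ w) (g : α) (hg : g ∈ S) (hgF : g ∈ F) (P Q : α → Prop)
    (h : ∀ s ∈ Φ, P s → op s g ∈ Φ → Q (op s g)) : ms Φ w P ≤ ms Φ w Q + δ * ∑ s ∈ Φ, w s := by
  classical
  have h1 : ms Φ w P ≤ ∑ s ∈ Φ.filter P, w (op s g) + ∑ s ∈ Φ, max (w s - w (op s g)) 0 := by
    rw [ms_eq]
    have h2 : ∑ s ∈ Φ.filter P, max (w s - w (op s g)) 0 ≤ ∑ s ∈ Φ, max (w s - w (op s g)) 0 :=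
      Finset.sum_le_sum_of_subset_of_nonneg (Finset.filter_subset _ _) fun s _ _ => le_max_right _ _
    have h3 : ∑ s ∈ Φ.filter P, w s ≤
        ∑ s ∈ Φ.filter P, w (op s g) + ∑ s ∈ Φ.filter P, max (w s - w (op s g)) 0 := by
      rw [← Finset.sum_add_distrib]
      refine Finset.sum_le_sum fun s _ => ?_
      have := le_max_left (w s - w (op s g)) 0
      linarith
    linarith
  have h2 : ∑ s ∈ Φ.filter P, w (op s g) ≤ ms Φ w Q := by
    rw [ms_eq]
    have h3 : ∑ s ∈ Φ.filter P, w (op s g) = ∑ y ∈ (Φ.filter P).image (fun s => op s g), w y := by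
      rw [Finset.sum_image]
      intro a ha b hb h
      rw [Finset.mem_coe, Finset.mem_filter] at ha hb
      exact hcan a (hΦ.sub a ha.1) b (hΦ.sub b hb.1) g hg h
    have h4 : ∑ y ∈ ((Φ.filter P).image (fun s => op s g)).filter (fun y => y ∈ Φ), w y =
        ∑ y ∈ (Φ.filter P).image (fun s => op s g), w y := by
      refine Finset.sum_filter_of_ne fun y _ hy => ?_
      by_contra hcon
      exact hy (hΦ.out y hcon)
    rw [h3, ← h4]
    refine Finset.sum_le_sum_of_subset_of_nonneg (fun y hy => ?_) fun s _ _ => hΦ.nn s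
    rw [Finset.mem_filter, Finset.mem_image] at hy
    obtain ⟨⟨s, hs, rfl⟩, hy⟩ := hy
    rw [Finset.mem_filter] at hs ⊢
    exact ⟨hy, h s hs.1 hs.2 hy⟩
  have h3 := hΦ.inv g hgF
  linarith

/-- **all elements of `S` act bijectively on `F_3`** -/
theorem third_perm (op : α → α → α) (S : Set α)
    (hcan : ∀ s ∈ S, ∀ s' ∈ S, ∀ g ∈ S, op s g = op s' g → s = s') (hne : S.Nonempty)
    (typ : α → R3) (htyp : ∀ s t, typ (op s t) = mulR (typ s) (typ t)) (hbij : ∀ s ∈ S, (typ s).2 ≠ 0)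
    (P : α → Prop) (hno : ∀ u : ℕ → R3, (∃ z : ZMod 3, ∀ i < 4, (u i).1 + (u i).2 * z ≠ 0) →
      ¬ Ex op S typ P u 4) (ε : ℝ) (hε : 0 < ε) :
    Ev op S (fun Φ w => (1 / 3 - ε) * ∑ s ∈ Φ, w s ≤ ms Φ w P) := by
  classical
  by_cases hε3 : 1 / 3 ≤ ε
  · refine ⟨∅, 1, 1, fun g hg => absurd hg (Finset.notMem_empty g), one_pos, one_pos, fun Φ w hΦ _ => ?_⟩
    have h1 := hΦ.pos
    have h2 := ms_nonneg Φ w hΦ.nn P
    nlinarith
  push Not at hε3
  obtain ⟨M, hMdef⟩ : ∃ M : Finset R3, M = Finset.univ.filter fun m => ∃ s ∈ S, typ s = m := ⟨_, rfl⟩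
  have hMmem : ∀ m, m ∈ M ↔ ∃ s ∈ S, typ s = m := fun m => by rw [hMdef]; simp
  have hMbij : ∀ m ∈ M, m.2 ≠ 0 := fun m hm => by
    obtain ⟨s, hs, rfl⟩ := (hMmem m).1 hm
    exact hbij s hs
  have hMne : M.Nonempty := by
    obtain ⟨s, hs⟩ := hne
    exact ⟨typ s, (hMmem _).2 ⟨s, hs, rfl⟩⟩
  have hMU : M ∈ U6.powerset := Finset.mem_powerset.2 fun x hx => mem_U6 x (hMbij x hx)
  obtain ⟨k, hk⟩ : ∃ k : ℝ, k = M.card := ⟨_, rfl⟩
  have hk1 : 1 ≤ k := by
    rw [hk]
    exact_mod_cast hMne.card_pos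
  have hk6 : k ≤ 6 := by
    rw [hk]
    have h1 := Finset.card_le_card (Finset.mem_powerset.1 hMU)
    have h2 : U6.card = 6 := by decide
    rw [h2] at h1
    exact_mod_cast h1
  -- closure and equidistribution in the fibres
  have hrep : ∀ m : R3, ∃ s : α, m ∈ M → s ∈ S ∧ typ s = m := by
    intro m
    by_cases hm : m ∈ M
    · obtain ⟨s, hs, h⟩ := (hMmem m).1 hm
      exact ⟨s, fun _ => ⟨hs, h⟩⟩
    · obtain ⟨s, hs⟩ := hne
      exact ⟨s, fun h => absurd h hm⟩
  choose rep hrep using hrep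
  have hequi : Ev op S (fun Φ w => ((∀ s ∈ Φ, s ∈ S) ∧ (∀ s, 0 ≤ w s) ∧ 0 < ∑ s ∈ Φ, w s) ∧
      (∀ x ∈ M, ∀ y ∈ M, mulR x y ∈ M) ∧ ∀ m ∈ M, (1 - ε) * ∑ s ∈ Φ, w s ≤ k * ms Φ w (fun s => typ s = m)) := by
    refine ⟨M.image rep, min (ε / 6) (1 / 18), 1, ?_, lt_min (by positivity) (by norm_num), one_pos,
      fun Φ w hΦ _ => ⟨⟨hΦ.sub, hΦ.nn, hΦ.pos⟩, ?_⟩⟩
    · intro g hg
      obtain ⟨m, hm, rfl⟩ := Finset.mem_image.1 hg
      exact (hrep m hm).1
    obtain ⟨δ, hδ⟩ : ∃ δ : ℝ, δ = min (ε / 6) (1 / 18) := ⟨_, rfl⟩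
    have hδ1 : δ ≤ ε / 6 := by rw [hδ]; exact min_le_left _ _
    have hδ2 : δ ≤ 1 / 18 := by rw [hδ]; exact min_le_right _ _
    have hδ0 : 0 < δ := by rw [hδ]; exact lt_min (by positivity) (by norm_num)
    rw [← hδ] at hΦ
    obtain ⟨tot, htot⟩ : ∃ tot : ℝ, tot = ∑ s ∈ Φ, w s := ⟨_, rfl⟩
    have htot0 : 0 < tot := by rw [htot]; exact hΦ.pos
    rw [← htot]
    let lam : R3 → ℝ := fun m => ms Φ w (fun s => typ s = m)
    have hsh : ∀ m, ∀ m' ∈ M, lam m ≤ lam (mulR m m') + δ * tot := by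
      intro m m' hm'
      rw [htot]
      refine ms_shift op S hcan _ δ Φ w hΦ (rep m') (hrep m' hm').1 (Finset.mem_image_of_mem _ hm') _ _
        fun s _ hs _ => ?_
      rw [htyp, hs, (hrep m' hm').2]
    have hpos : ∀ m, 0 < lam m → m ∈ M := by
      intro m hm
      by_contra hcon
      have h1 : lam m = 0 := by
        show ms Φ w (fun s => typ s = m) = 0
        rw [ms_eq]
        refine Finset.sum_eq_zero fun s hs => ?_
        rw [Finset.mem_filter] at hs
        exact absurd ((hMmem m).2 ⟨s, hΦ.sub s hs.1, hs.2⟩) hcon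
      linarith
    have hsum : tot = ∑ m ∈ M, lam m := by
      rw [htot, ← ms_true Φ w, ms_fib Φ w typ M (fun s hs => (hMmem _).2 ⟨s, hΦ.sub s hs, rfl⟩)]
      exact Finset.sum_congr rfl fun m _ => ms_congr Φ w fun s _ => by simp
    obtain ⟨m₀, hm₀, hmax⟩ := Finset.exists_max_image M lam hMne
    have hm₀k : tot ≤ k * lam m₀ := by
      rw [hsum, hk, ← nsmul_eq_mul]
      exact Finset.sum_le_card_nsmul _ _ _ hmax
    have hm₀6 : tot / 6 ≤ lam m₀ := by
      have h1 : 0 ≤ lam m₀ := ms_nonneg Φ w hΦ.nn _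
      nlinarith
    have hin : ∀ m' ∈ M, mulR m₀ m' ∈ M := by
      intro m' hm'
      refine hpos _ ?_
      have := hsh m₀ m' hm'
      nlinarith
    have hinj : ∀ x y z : R3, x.2 ≠ 0 → mulR x y = mulR x z → y = z := by decide
    have hall : ∀ x ∈ M, lam m₀ - δ * tot ≤ lam x := by
      intro x hx
      have h1 : M.image (mulR m₀) = M := by
        refine Finset.eq_of_subset_of_card_le ?_ ?_
        · intro y hy
          obtain ⟨m', hm', rfl⟩ := Finset.mem_image.1 hy
          exact hin m' hm'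
        · rw [Finset.card_image_of_injective _ fun a b hab => hinj m₀ a b (hMbij m₀ hm₀) hab]
      rw [← h1] at hx
      obtain ⟨m', hm', rfl⟩ := Finset.mem_image.1 hx
      have := hsh m₀ m' hm'
      linarith
    refine ⟨fun x hx y hy => hpos _ ?_, fun m hm => ?_⟩
    · have h1 := hall x hx
      have h2 := hsh x y hy
      nlinarith
    · have h1 := hall m hm
      show (1 - ε) * tot ≤ k * lam m
      have h2 : k * (lam m₀ - δ * tot) ≤ k * lam m := mul_le_mul_of_nonneg_left h1 (by linarith)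
      have h3 : k * (δ * tot) ≤ ε * tot := by
        have h4 : k * δ ≤ ε := by nlinarith
        nlinarith
      nlinarith
  -- the patterns
  let uu : (Fin 3 → R3) → ℕ → R3 := fun v i => if h : i < 3 then v ⟨i, h⟩ else (0, 0)
  have hpat : Ev op S (fun Φ w => ∀ x : (Fin 3 → R3) × Fin 4 × R3, Ex op S typ P (uu x.1) x.2.1 →
      ¬ Ex op S typ P (fun i => if i < (x.2.1 : ℕ) then uu x.1 i else x.2.2) (x.2.1 + 1) →
      1 / 9 * ∑ s ∈ Φ, w s ≤ ms Φ w (fun s => typ s = x.2.2) → (1 - ε) * ms Φ w (fun s => typ s = x.2.2) ≤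
      ∑ i ∈ range x.2.1, ms Φ w (fun s => mulR (typ s) (uu x.1 i) = x.2.2 ∧ P s)) := by
    refine Ev.all fun x => ?_
    by_cases h1 : Ex op S typ P (uu x.1) x.2.1
    · by_cases h2 : Ex op S typ P (fun i => if i < (x.2.1 : ℕ) then uu x.1 i else x.2.2) (x.2.1 + 1)
      · exact Ev.triv fun Φ w _ h => absurd h2 h
      · exact (dens_of_not op S hcan typ mulR htyp P (uu x.1) x.2.1 h1 x.2.2 h2 ε (1 / 9) hε
          (by norm_num)).mono fun Φ w h _ _ => h
    · exact Ev.triv fun Φ w h => absurd h h1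
  refine (hequi.and hpat).mono fun Φ w hΦ => ?_
  obtain ⟨⟨⟨hΦS, hw0, hn⟩, hMmul, hequi⟩, hpat⟩ := hΦ
  by_contra hcon
  push Not at hcon
  obtain ⟨D, hD⟩ : ∃ D : ℝ, D = (1 - ε) * ((1 - ε) * ∑ s ∈ Φ, w s) := ⟨_, rfl⟩
  have hε1 : 0 < 1 - ε := by linarith
  have hD0 : 0 < D := by rw [hD]; positivity
  obtain ⟨l, hl, hl4, hlM, z, hz⟩ := comb M hMne hMbij hMmul (fun m => k * ms Φ w (fun s => typ s = m ∧ P s) / D)
    (fun m => div_nonneg (mul_nonneg (by linarith) (ms_nonneg Φ w hw0 _)) hD0.le) (by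
      have h1 := ms_fib Φ w typ M (fun s hs => (hMmem _).2 ⟨s, hΦS s hs, rfl⟩) P
      have h2 : ∑ m ∈ M, k * ms Φ w (fun s => typ s = m ∧ P s) / D = k * ms Φ w P / D := by
        rw [h1, Finset.mul_sum, Finset.sum_div]
      rw [h2, ← hk, ← mul_div_assoc, div_lt_iff₀ hD0]
      have h3 : 3 * ms Φ w P < (1 - 3 * ε) * ∑ s ∈ Φ, w s := by linarith
      have h4 : (1 - 3 * ε) * ∑ s ∈ Φ, w s ≤ D := by
        rw [hD]
        have h5 : (1 - 3 * ε) ≤ (1 - ε) * (1 - ε) := by nlinarith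
        calc (1 - 3 * ε) * ∑ s ∈ Φ, w s ≤ (1 - ε) * (1 - ε) * ∑ s ∈ Φ, w s := mul_le_mul_of_nonneg_right h5 hn.le
          _ = _ := by ring
      have h6 : 0 < k := by linarith
      nlinarith)
    (fun l => Ex op S typ P (fun i => l.getD i (0, 0)) l.length) (ex_zero op S typ P _) (by
      intro l hl hlM c hc hE hsum
      by_contra hnE
      have hgd : ∀ i < l.length, uu (fun i => l.getD i (0, 0)) i = l.getD i (0, 0) := by
        intro i hi
        show (if h : i < 3 then l.getD i (0, 0) else (0, 0)) = _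
        rw [dif_pos (by omega)]
      have h1 := hpat (fun i => l.getD i (0, 0), ⟨l.length, hl⟩, c) (ex_congr (fun i hi => (hgd i hi).symm) hE)
        (fun h => hnE (by
          have h2 := ex_congr (v := fun i => (l ++ [c]).getD i (0, 0)) (r := l.length + 1) (fun i hi => by
            by_cases hil : i < l.length
            · simp only [hil, if_true]
              rw [hgd i hil, List.getD_append _ _ _ _ hil]
            · simp only [hil, if_false]
              have h3 : i = l.length := by omega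
              subst h3
              simp) h
          simpa using h2)) (by
          have h2 := hequi c hc
          show 1 / 9 * ∑ s ∈ Φ, w s ≤ ms Φ w (fun s => typ s = c)
          have h3 : 0 ≤ ms Φ w (fun s => typ s = c) := ms_nonneg Φ w hw0 _
          nlinarith)
      simp only at h1
      have h2 : ∑ i ∈ range l.length, ms Φ w (fun s => mulR (typ s) (uu (fun i => l.getD i (0, 0)) i) = c ∧ P s) =
          (l.map fun x => ms Φ w (fun s => typ s = mulR c (invR x) ∧ P s)).sum := by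
        rw [← Fin.sum_univ_eq_sum_range
          (fun i => ms Φ w (fun s => mulR (typ s) (uu (fun i => l.getD i (0, 0)) i) = c ∧ P s)) l.length]
        rw [← List.sum_ofFn]
        congr 1
        refine List.ext_getElem (by simp) fun i hi1 hi2 => ?_
        have hi : i < l.length := by simpa using hi1
        rw [List.getElem_ofFn, List.getElem_map]
        refine ms_congr Φ w fun s _ => ?_
        have hx : l[i] ∈ l := List.getElem_mem hi
        rw [hgd i hi, List.getD_eq_getElem _ _ hi, mulR_eq_iff _ _ _ (hMbij _ (hlM _ hx))]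
      rw [h2] at h1
      have h3 : (l.map fun x => k * ms Φ w (fun s => typ s = mulR c (invR x) ∧ P s) / D).sum =
          k / D * (l.map fun x => ms Φ w (fun s => typ s = mulR c (invR x) ∧ P s)).sum := by
        rw [← List.sum_map_mul_left]
        congr 1
        refine List.map_congr_left fun x _ => ?_
        ring
      rw [h3] at hsum
      have h4 := hequi c hc
      have h5 : D ≤ k * (l.map fun x => ms Φ w (fun s => typ s = mulR c (invR x) ∧ P s)).sum := by
        rw [hD]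
        have h6 := mul_le_mul_of_nonneg_left h4 hε1.le
        have h7 := mul_le_mul_of_nonneg_left h1 (by linarith : (0 : ℝ) ≤ k)
        linarith
      rw [div_mul_eq_mul_div, div_lt_one hD0] at hsum
      linarith)
  refine hno (fun i => l.getD i (0, 0)) ⟨z, fun i hi => ?_⟩ (by rw [← hl4]; exact hl)
  rw [List.getD_eq_getElem _ _ (by omega)]
  exact hz _ (List.getElem_mem _)

/-- **some element of `S` is constant on `F_3`** -/
theorem third_const (op : α → α → α) (S : Set α)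
    (hcan : ∀ s ∈ S, ∀ s' ∈ S, ∀ g ∈ S, op s g = op s' g → s = s')
    (typ : α → Bool) (htyp : ∀ s t, typ (op s t) = (typ s || typ t)) (s₀ : α) (hs₀ : s₀ ∈ S)
    (hs₀t : typ s₀ = true) (P : α → Prop) (hno : ¬ Ex op S typ P (fun _ => true) 4) (ε : ℝ) (hε : 0 < ε) :
    Ev op S (fun Φ w => (1 / 3 - ε) * ∑ s ∈ Φ, w s ≤ ms Φ w P) := by
  classical
  by_cases hε3 : 1 / 3 ≤ ε
  · refine ⟨∅, 1, 1, fun g hg => absurd hg (Finset.notMem_empty g), one_pos, one_pos, fun Φ w hΦ _ => ?_⟩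
    have h1 := hΦ.pos
    have h2 := ms_nonneg Φ w hΦ.nn P
    nlinarith
  push Not at hε3
  obtain ⟨r, hr4, hr, hr'⟩ : ∃ r < 4, Ex op S typ P (fun _ => true) r ∧ ¬ Ex op S typ P (fun _ => true) (r + 1) := by
    by_contra hcon
    push Not at hcon
    have h1 := hcon 0 (by norm_num) (ex_zero op S typ P _)
    have h2 := hcon 1 (by norm_num) h1
    have h3 := hcon 2 (by norm_num) h2
    exact hno (hcon 3 (by norm_num) h3)
  have h1 := dens_of_not op S hcan typ (fun a b => a || b) htyp P (fun _ => true) r hr true (fun h =>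
    hr' (ex_congr (fun i hi => by simp) h)) ε (1 / 2) hε (by norm_num)
  have h2 : Ev op S (fun Φ w => ((∀ s, 0 ≤ w s) ∧ 0 < ∑ s ∈ Φ, w s) ∧
      (1 - ε) * ∑ s ∈ Φ, w s ≤ ms Φ w (fun s => typ s = true)) := by
    refine ⟨{s₀}, ε, 1, fun g hg => by rw [Finset.mem_singleton.1 hg]; exact hs₀, hε, one_pos,
      fun Φ w hΦ _ => ⟨⟨hΦ.nn, hΦ.pos⟩, ?_⟩⟩
    have h3 := ms_shift op S hcan _ ε Φ w hΦ s₀ hs₀ (Finset.mem_singleton_self _) (fun _ => True)
      (fun s => typ s = true) (fun s _ _ _ => by rw [htyp, hs₀t, Bool.or_true])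
    rw [ms_true] at h3
    linarith
  refine (h1.and h2).mono fun Φ w hΦ => ?_
  obtain ⟨h1, ⟨hw0, hn⟩, h2⟩ := hΦ
  have h3 := h1 (by nlinarith)
  have h4 : ∑ i ∈ range r, ms Φ w (fun s => (typ s || true) = true ∧ P s) = r * ms Φ w P := by
    rw [Finset.sum_const, Finset.card_range, nsmul_eq_mul]
    congr 1
    exact ms_congr Φ w fun s _ => by simp
  rw [h4] at h3
  have h5 : 0 ≤ ms Φ w P := ms_nonneg Φ w hw0 P
  have h6 : (r : ℝ) ≤ 3 := by
    have : r ≤ 3 := by omega
    exact_mod_cast this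
  have h7 : (1 - ε) * ((1 - ε) * ∑ s ∈ Φ, w s) ≤ (1 - ε) * ms Φ w (fun s => typ s = true) :=
    mul_le_mul_of_nonneg_left h2 (by linarith)
  have h8 : (r : ℝ) * ms Φ w P ≤ 3 * ms Φ w P := mul_le_mul_of_nonneg_right h6 h5
  have h9 : (1 - 3 * ε) * ∑ s ∈ Φ, w s ≤ (1 - ε) * ((1 - ε) * ∑ s ∈ Φ, w s) := by
    rw [← mul_assoc]
    exact mul_le_mul_of_nonneg_right (by nlinarith) hn.le
  linarith

end Pool.Agent.AmW
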