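import Pool.Agent.AmS.Greedy

/-! INVARIANT WEIGHTS (helper35): the greedy construction of `AmS.Greedy` for weights instead of finite sets. -/

set_option autoImplicit false

namespace Pool.Agent.AmW

open Finset Pool.Agent.AmS

variable {α R : Type} [DecidableEq α]

open Classical in
/-- the mass of the elements of `Φ` with the property `P` -/
noncomputable def ms (Φ : Finset α) (w : α → ℝ) (P : α → Prop) : ℝ := ∑ s ∈ Φ.filter P, w s

theorem ms_eq (Φ : Finset α) (w : α → ℝ) (P : α → Prop) [DecidablePred P] :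
    ms Φ w P = ∑ s ∈ Φ.filter P, w s := by
  unfold ms
  congr

/-- a weight on the finite set `Φ`, invariant up to `δ` under right multiplication by the elements of `F` -/
structure Inv (op : α → α → α) (S : Set α) (F : Finset α) (δ : ℝ) (Φ : Finset α) (w : α → ℝ) : Prop where
  sub : ∀ s ∈ Φ, s ∈ S
  nn : ∀ s, 0 ≤ w s
  out : ∀ s, s ∉ Φ → w s = 0
  pos : 0 < ∑ s ∈ Φ, w s
  inv : ∀ g ∈ F, ∑ s ∈ Φ, max (w s - w (op s g)) 0 ≤ δ * ∑ s ∈ Φ, w s

theorem ms_mono {P Q : α → Prop} (Φ : Finset α) (w : α → ℝ) (hw : ∀ s, 0 ≤ w s) (h : ∀ a ∈ Φ, P a → Q a) :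
    ms Φ w P ≤ ms Φ w Q := by
  classical
  rw [ms_eq, ms_eq]
  refine Finset.sum_le_sum_of_subset_of_nonneg (fun a ha => ?_) fun s _ _ => hw s
  rw [Finset.mem_filter] at ha ⊢
  exact ⟨ha.1, h a ha.1 ha.2⟩

theorem ms_congr {P Q : α → Prop} (Φ : Finset α) (w : α → ℝ) (h : ∀ a ∈ Φ, (P a ↔ Q a)) :
    ms Φ w P = ms Φ w Q := by
  classical
  rw [ms_eq, ms_eq]
  congr 1
  exact Finset.filter_congr h

theorem ms_nonneg (Φ : Finset α) (w : α → ℝ) (hw : ∀ s, 0 ≤ w s) (P : α → Prop) : 0 ≤ ms Φ w P := by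
  classical
  rw [ms_eq]
  exact Finset.sum_nonneg fun s _ => hw s

/-- the main inequality: the elements `s t` with `q s` and the elements which are not of the form `s t` -/
theorem shift (op : α → α → α) (S : Set α)
    (hcan : ∀ s ∈ S, ∀ s' ∈ S, ∀ g ∈ S, op s g = op s' g → s = s') (F : Finset α) (δ : ℝ) (Φ : Finset α)
    (w : α → ℝ) (hΦ : Inv op S F δ Φ w) (t : α) (ht : t ∈ S) (htF : t ∈ F) (q : α → Prop) :
    ms Φ w (fun y => (∃ s ∈ Φ, y = op s t ∧ q s) ∨ ¬ ∃ s ∈ Φ, y = op s t) ≤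
      ms Φ w q + δ * ∑ s ∈ Φ, w s := by
  classical
  have hinj : Set.InjOn (fun s => op s t) (Φ : Set α) := fun s hs s' hs' h =>
    hcan s (hΦ.sub s hs) s' (hΦ.sub s' hs') t ht h
  -- the image
  have himg : ∀ G : Finset α, G ⊆ Φ → ∑ y ∈ Φ.filter (fun y => ∃ s ∈ G, y = op s t), w y =
      ∑ s ∈ G, w (op s t) := by
    intro G hG
    have h1 : ∑ s ∈ G, w (op s t) = ∑ y ∈ G.image (fun s => op s t), w y := by
      rw [Finset.sum_image (fun a ha b hb h => hinj (hG ha) (hG hb) h)]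
    rw [h1]
    refine Finset.sum_subset_zero_on_sdiff ?_ ?_ (fun _ _ => rfl)
    · intro y hy
      rw [Finset.mem_filter] at hy
      obtain ⟨s, hs, rfl⟩ := hy.2
      exact Finset.mem_image_of_mem _ hs
    · intro y hy
      rw [Finset.mem_sdiff, Finset.mem_image] at hy
      obtain ⟨⟨s, hs, rfl⟩, h2⟩ := hy
      refine hΦ.out _ fun h3 => h2 ?_
      rw [Finset.mem_filter]
      exact ⟨h3, s, hs, rfl⟩
  have e1 : ms Φ w (fun y => (∃ s ∈ Φ, y = op s t ∧ q s) ∨ ¬ ∃ s ∈ Φ, y = op s t) ≤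
      ∑ y ∈ Φ.filter (fun y => ∃ s ∈ Φ.filter q, y = op s t), w y +
        ∑ y ∈ Φ.filter (fun y => ¬ ∃ s ∈ Φ, y = op s t), w y := by
    rw [ms_eq]
    refine le_trans (Finset.sum_le_sum_of_subset_of_nonneg (t := Φ.filter (fun y => ∃ s ∈ Φ.filter q, y = op s t) ∪
      Φ.filter (fun y => ¬ ∃ s ∈ Φ, y = op s t)) ?_ fun s _ _ => hΦ.nn s) ?_
    · intro y hy
      rw [Finset.mem_filter] at hy
      rw [Finset.mem_union, Finset.mem_filter, Finset.mem_filter]
      rcases hy.2 with ⟨s, hs, h1, h2⟩ | h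
      · exact Or.inl ⟨hy.1, s, Finset.mem_filter.2 ⟨hs, h2⟩, h1⟩
      · exact Or.inr ⟨hy.1, h⟩
    · have h1 := Finset.sum_union_inter (s₁ := Φ.filter (fun y => ∃ s ∈ Φ.filter q, y = op s t))
        (s₂ := Φ.filter (fun y => ¬ ∃ s ∈ Φ, y = op s t)) (f := w)
      have h2 : 0 ≤ ∑ y ∈ Φ.filter (fun y => ∃ s ∈ Φ.filter q, y = op s t) ∩
          Φ.filter (fun y => ¬ ∃ s ∈ Φ, y = op s t), w y := Finset.sum_nonneg fun s _ => hΦ.nn s
      linarith
  have e2 : ∑ y ∈ Φ.filter (fun y => ∃ s ∈ Φ, y = op s t), w y +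
      ∑ y ∈ Φ.filter (fun y => ¬ ∃ s ∈ Φ, y = op s t), w y = ∑ y ∈ Φ, w y :=
    Finset.sum_filter_add_sum_filter_not _ _ _
  rw [himg Φ subset_rfl] at e2
  rw [himg _ (Finset.filter_subset _ _)] at e1
  have e3 := hΦ.inv t htF
  have e4 : ∑ s ∈ Φ.filter q, w (op s t) ≤ ∑ s ∈ Φ.filter q, w s + ∑ s ∈ Φ.filter q, (w (op s t) - w s) := by
    rw [← Finset.sum_add_distrib]
    refine Finset.sum_le_sum fun s _ => ?_
    linarith
  have e5 : ∑ s ∈ Φ.filter q, (w (op s t) - w s) + ∑ s ∈ Φ, (w s - w (op s t)) ≤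
      ∑ s ∈ Φ, max (w s - w (op s t)) 0 := by
    have h1 := Finset.sum_filter_add_sum_filter_not Φ q (fun s => w s - w (op s t))
    rw [← h1]
    have h2 : ∑ s ∈ Φ.filter q, (w (op s t) - w s) + ∑ s ∈ Φ.filter q, (w s - w (op s t)) = 0 := by
      rw [← Finset.sum_add_distrib]
      exact Finset.sum_eq_zero fun s _ => by ring
    have h3 : ∑ s ∈ Φ.filter (fun s => ¬ q s), (w s - w (op s t)) ≤
        ∑ s ∈ Φ.filter (fun s => ¬ q s), max (w s - w (op s t)) 0 :=
      Finset.sum_le_sum fun s _ => le_max_left _ _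
    have h4 : ∑ s ∈ Φ.filter (fun s => ¬ q s), max (w s - w (op s t)) 0 ≤
        ∑ s ∈ Φ, max (w s - w (op s t)) 0 :=
      Finset.sum_le_sum_of_subset_of_nonneg (Finset.filter_subset _ _) fun s _ _ => le_max_right _ _
    linarith
  have e6 : ∑ s ∈ Φ, (w s - w (op s t)) = ∑ s ∈ Φ, w s - ∑ s ∈ Φ, w (op s t) := Finset.sum_sub_distrib _ _
  rw [ms_eq Φ w q]
  linarith

/-- the greedy step: `r` groups of elements, one more group of class `c` -/
theorem step (op : α → α → α) (S : Set α)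
    (hcan : ∀ s ∈ S, ∀ s' ∈ S, ∀ g ∈ S, op s g = op s' g → s = s')
    (typ : α → R) (mul : R → R → R) (htyp : ∀ s t, typ (op s t) = mul (typ s) (typ t))
    (P : α → Prop) (r : ℕ) (T : ℕ → Finset α) (v : ℕ → R) (c : R)
    (hT : ∀ i < r, (T i).Nonempty) (hTS : ∀ i < r, ∀ t ∈ T i, t ∈ S) (hcl : ∀ i < r, ∀ t ∈ T i, typ t = v i)
    (ε κ : ℝ) (hε : 0 < ε) (hκ : 0 < κ)
    (hbad : ∀ (F : Finset α) (δ η : ℝ), (∀ g ∈ F, g ∈ S) → 0 < δ → 0 < η → ∃ (Φ : Finset α) (w : α → ℝ),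
      Inv op S F δ Φ w ∧ (∀ s, w s ≤ η * ∑ s ∈ Φ, w s) ∧ κ * ∑ s ∈ Φ, w s ≤ ms Φ w (fun s => typ s = c) ∧
      ∑ i ∈ range r, ms Φ w (fun s => mul (typ s) (v i) = c ∧ P s) ≤ (1 - ε) * ms Φ w (fun s => typ s = c))
    (n : ℕ) (hn : 0 < n) :
    ∃ Y : Finset α, Y.card = n ∧ (∀ y ∈ Y, y ∈ S) ∧ (∀ y ∈ Y, typ y = c) ∧
      ∃ T' : ℕ → Finset α, ∀ i < r, T' i ⊆ T i ∧ ε / 2 * (T i).card ≤ ((T' i).card : ℝ) ∧
        ∀ t ∈ T' i, ∀ y ∈ Y, ∃ s ∈ S, y = op s t ∧ ¬ P s := by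
  classical
  let B : α → α → Prop := fun t y => ¬ ∃ s ∈ S, y = op s t ∧ ¬ P s
  let Sg : Finset (Σ _ : ℕ, α) := (range r).sigma T
  obtain ⟨K, hK⟩ : ∃ K : ℕ, K = (Sg.powerset).card := ⟨_, rfl⟩
  have hK0 : 0 < K := by rw [hK]; exact Finset.card_pos.2 ⟨∅, Finset.empty_mem_powerset _⟩
  obtain ⟨δ, hδ⟩ : ∃ δ : ℝ, δ = ε * κ / (4 * (r + 1)) := ⟨_, rfl⟩
  have hr1 : (0 : ℝ) < 4 * ((r : ℝ) + 1) := by positivity
  have hδ0 : 0 < δ := by rw [hδ]; positivity
  obtain ⟨η, hη⟩ : ∃ η : ℝ, η = ε * κ / (4 * K * n) := ⟨_, rfl⟩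
  have hKr : (0 : ℝ) < K := by exact_mod_cast hK0
  have hnr : (0 : ℝ) < n := by exact_mod_cast hn
  have hη0 : 0 < η := by rw [hη]; positivity
  obtain ⟨Φ, w, hΦ, hΦN, hκΦ, hcnt⟩ := hbad ((range r).biUnion T) δ η (by
    intro g hg
    obtain ⟨i, hi, hgi⟩ := Finset.mem_biUnion.1 hg
    exact hTS i (Finset.mem_range.1 hi) g hgi) hδ0 hη0
  set I : Finset α := Φ.filter fun y => typ y = c with hI
  obtain ⟨tot, htot⟩ : ∃ tot : ℝ, tot = ∑ s ∈ Φ, w s := ⟨_, rfl⟩
  have htot0 : 0 < tot := by rw [htot]; exact hΦ.pos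
  rw [← htot] at hΦN hκΦ
  have hIct : ms Φ w (fun s => typ s = c) = ∑ s ∈ I, w s := ms_eq _ _ _
  rw [hIct] at hκΦ hcnt
  let W : α → ℝ := fun y => ∑ i ∈ range r, (((T i).filter fun t => B t y).card : ℝ) / (T i).card
  have hcardT : ∀ i < r, (0 : ℝ) < (T i).card := fun i hi => by exact_mod_cast (hT i hi).card_pos
  -- the average
  have hone : ∀ i < r, ∀ t ∈ T i, ∑ y ∈ I.filter (fun y => B t y), w y ≤
      ms Φ w (fun s => mul (typ s) (v i) = c ∧ P s) + δ * tot := by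
    intro i hi t ht
    have htS := hTS i hi t ht
    have h2 := shift op S hcan _ δ Φ w hΦ t htS (Finset.mem_biUnion.2 ⟨i, Finset.mem_range.2 hi, ht⟩)
      (fun s => mul (typ s) (v i) = c ∧ P s)
    rw [← htot] at h2
    refine le_trans ?_ h2
    rw [ms_eq]
    refine Finset.sum_le_sum_of_subset_of_nonneg (fun y hy => ?_) fun s _ _ => hΦ.nn s
    rw [hI, Finset.mem_filter, Finset.mem_filter] at hy
    rw [Finset.mem_filter]
    refine ⟨hy.1.1, ?_⟩
    by_cases h : ∃ s ∈ Φ, y = op s t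
    · left
      obtain ⟨s, hs, hys⟩ := h
      refine ⟨s, hs, hys, ?_, ?_⟩
      · rw [← hcl i hi t ht, ← htyp, ← hys]
        exact hy.1.2
      · by_contra hP
        exact hy.2 ⟨s, hΦ.sub s hs, hys, hP⟩
    · exact Or.inr h
  have hsumW : ∑ y ∈ I, w y * W y ≤ (1 - ε) * ∑ s ∈ I, w s + r * (δ * tot) := by
    have h1 : ∑ y ∈ I, w y * W y =
        ∑ i ∈ range r, (∑ t ∈ T i, ∑ y ∈ I.filter (fun y => B t y), w y) / (T i).card := by
      show ∑ y ∈ I, w y * ∑ i ∈ range r, (((T i).filter fun t => B t y).card : ℝ) / (T i).card = _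
      have h0 : ∀ y ∈ I, w y * ∑ i ∈ range r, (((T i).filter fun t => B t y).card : ℝ) / (T i).card =
          ∑ i ∈ range r, w y * ((((T i).filter fun t => B t y).card : ℝ) / (T i).card) :=
        fun y _ => Finset.mul_sum _ _ _
      rw [Finset.sum_congr rfl h0, Finset.sum_comm]
      refine Finset.sum_congr rfl fun i _ => ?_
      have h2 : ∀ y ∈ I, w y * ((((T i).filter fun t => B t y).card : ℝ) / (T i).card) =
          (∑ t ∈ T i, if B t y then w y else 0) / (T i).card := by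
        intro y _
        rw [Finset.card_filter, ← mul_div_assoc]
        congr 1
        push_cast
        rw [Finset.mul_sum]
        refine Finset.sum_congr rfl fun t _ => ?_
        by_cases h : B t y
        · rw [if_pos h, if_pos h, mul_one]
        · rw [if_neg h, if_neg h, mul_zero]
      rw [Finset.sum_congr rfl h2, ← Finset.sum_div]
      congr 1
      rw [Finset.sum_comm]
      exact Finset.sum_congr rfl fun t _ => (Finset.sum_filter _ _).symm
    rw [h1]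
    refine (Finset.sum_le_sum (g := fun i =>
      ms Φ w (fun s => mul (typ s) (v i) = c ∧ P s) + δ * tot) fun i hi => ?_).trans ?_
    · rw [Finset.mem_range] at hi
      rw [div_le_iff₀ (hcardT i hi)]
      have h3 := Finset.sum_le_sum fun t ht => hone i hi t ht
      refine h3.trans ?_
      rw [Finset.sum_const, nsmul_eq_mul, mul_comm]
    · rw [Finset.sum_add_distrib, Finset.sum_const, Finset.card_range, nsmul_eq_mul]
      exact add_le_add hcnt le_rfl
  -- many good `y`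
  set J : Finset α := I.filter fun y => W y ≤ 1 - ε / 2 with hJ
  have hW0 : ∀ y, 0 ≤ W y := fun y => Finset.sum_nonneg fun i _ => by positivity
  have hI0 : 0 ≤ ∑ s ∈ I, w s := Finset.sum_nonneg fun s _ => hΦ.nn s
  have hJ0 : 0 ≤ ∑ s ∈ J, w s := Finset.sum_nonneg fun s _ => hΦ.nn s
  have hJcard : ε / 4 * (κ * tot) ≤ ∑ s ∈ J, w s := by
    have h1 : (1 - ε / 2) * (∑ s ∈ I, w s - ∑ s ∈ J, w s) ≤ ∑ y ∈ I, w y * W y := by
      have h2 : ∑ s ∈ I, w s - ∑ s ∈ J, w s = ∑ s ∈ I.filter (fun y => ¬ W y ≤ 1 - ε / 2), w s := by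
        have h3 := Finset.sum_filter_add_sum_filter_not I (fun y => W y ≤ 1 - ε / 2) w
        rw [← hJ] at h3
        linarith
      rw [h2, Finset.mul_sum]
      calc ∑ y ∈ I.filter (fun y => ¬ W y ≤ 1 - ε / 2), (1 - ε / 2) * w y
          ≤ ∑ y ∈ I.filter (fun y => ¬ W y ≤ 1 - ε / 2), w y * W y :=
            Finset.sum_le_sum fun y hy => by
              rw [mul_comm]
              exact mul_le_mul_of_nonneg_left (not_le.1 (Finset.mem_filter.1 hy).2).le (hΦ.nn y)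
        _ ≤ ∑ y ∈ I, w y * W y := Finset.sum_le_sum_of_subset_of_nonneg (Finset.filter_subset _ _)
            fun y _ _ => mul_nonneg (hΦ.nn y) (hW0 y)
    have h3 : (r : ℝ) * (δ * tot) ≤ ε / 4 * ∑ s ∈ I, w s := by
      have h4 : (r : ℝ) * δ ≤ ε / 4 * κ := by
        rw [hδ, mul_div_assoc', div_le_iff₀ hr1]
        have h5 : (0 : ℝ) ≤ ε * κ := by positivity
        nlinarith
      calc (r : ℝ) * (δ * tot) = (r * δ) * tot := by ring
        _ ≤ (ε / 4 * κ) * tot := mul_le_mul_of_nonneg_right h4 htot0.le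
        _ = ε / 4 * (κ * tot) := by ring
        _ ≤ ε / 4 * ∑ s ∈ I, w s := mul_le_mul_of_nonneg_left hκΦ (by positivity)
    have h7 : ε / 4 * ∑ s ∈ I, w s ≤ ∑ s ∈ J, w s := by nlinarith
    exact (mul_le_mul_of_nonneg_left hκΦ (by positivity)).trans h7
  -- pigeonhole
  let pat : α → Finset (Σ _ : ℕ, α) := fun y => Sg.filter fun p => ¬ B p.2 y
  have hmaps : ∀ y ∈ J, pat y ∈ Sg.powerset := by
    intro y hy
    rw [Finset.mem_powerset]
    exact Finset.filter_subset _ _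
  obtain ⟨U, hρS, hfib⟩ := Finset.exists_le_sum_fiber_of_maps_to_of_nsmul_le_sum hmaps
    ⟨∅, Finset.empty_mem_powerset _⟩ (b := ε / 4 * (κ * tot) / K) (w := w) (by
      rw [← hK, nsmul_eq_mul, mul_div_cancel₀ _ hKr.ne']
      exact hJcard)
  have hfibcard : n ≤ (J.filter fun y => pat y = U).card := by
    have h1 : ∑ y ∈ J.filter (fun y => pat y = U), w y ≤ (J.filter fun y => pat y = U).card * (η * tot) := by
      rw [← nsmul_eq_mul]
      exact Finset.sum_le_card_nsmul _ _ _ fun y _ => hΦN y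
    have h2 : (n : ℝ) * (η * tot) ≤ (J.filter fun y => pat y = U).card * (η * tot) := by
      refine le_trans (le_of_eq ?_) (hfib.trans h1)
      rw [hη]
      field_simp
    have h3 := le_of_mul_le_mul_right h2 (mul_pos hη0 htot0)
    exact_mod_cast h3
  obtain ⟨Y, hYsub, hYcard⟩ := Finset.exists_subset_card_eq hfibcard
  have hY : ∀ y ∈ Y, y ∈ Φ ∧ typ y = c ∧ W y ≤ 1 - ε / 2 ∧ (Sg.filter fun p => ¬ B p.2 y) = U := by
    intro y hy
    have h1 := hYsub hy
    rw [Finset.mem_filter, hJ, Finset.mem_filter, hI, Finset.mem_filter] at h1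
    exact ⟨h1.1.1.1, h1.1.1.2, h1.1.2, h1.2⟩
  refine ⟨Y, hYcard, fun y hy => hΦ.sub y (hY y hy).1, fun y hy => (hY y hy).2.1,
    fun i => (T i).filter fun t => (⟨i, t⟩ : Σ _ : ℕ, α) ∈ U, ?_⟩
  intro i hi
  refine ⟨Finset.filter_subset _ _, ?_, ?_⟩
  · obtain ⟨y, hy⟩ : Y.Nonempty := by rw [← Finset.card_pos, hYcard]; exact hn
    have h1 := hY y hy
    have h2 : ((T i).filter fun t => (⟨i, t⟩ : Σ _ : ℕ, α) ∈ U) = (T i).filter fun t => ¬ B t y := by
      refine Finset.filter_congr fun t ht => ?_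
      rw [← h1.2.2.2, Finset.mem_filter]
      constructor
      · intro h; exact h.2
      · intro h; exact ⟨Finset.mem_sigma.2 ⟨Finset.mem_range.2 hi, ht⟩, h⟩
    show ε / 2 * ((T i).card : ℝ) ≤ (((T i).filter fun t => (⟨i, t⟩ : Σ _ : ℕ, α) ∈ U).card : ℝ)
    rw [h2]
    have h3 := Finset.card_filter_add_card_filter_not (s := T i) (fun t => B t y)
    have h4 : (((T i).filter fun t => B t y).card : ℝ) / (T i).card ≤ 1 - ε / 2 := by
      refine le_trans ?_ h1.2.2.1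
      exact Finset.single_le_sum (f := fun i => (((T i).filter fun t => B t y).card : ℝ) / (T i).card)
        (fun i _ => by positivity) (Finset.mem_range.2 hi)
    rw [div_le_iff₀ (hcardT i hi)] at h4
    have h5 : (((T i).filter fun t => B t y).card : ℝ) + (((T i).filter fun t => ¬ B t y).card : ℝ) =
      (T i).card := by exact_mod_cast h3
    linarith
  · intro t ht y hy
    have h1 := hY y hy
    rw [Finset.mem_filter, ← h1.2.2.2, Finset.mem_filter] at ht
    have h2 : ¬ B t y := ht.2.2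
    exact not_not.1 h2

/-- a property of all sufficiently invariant and sufficiently spread weights -/
def Ev (op : α → α → α) (S : Set α) (p : Finset α → (α → ℝ) → Prop) : Prop :=
  ∃ (F : Finset α) (δ η : ℝ), (∀ g ∈ F, g ∈ S) ∧ 0 < δ ∧ 0 < η ∧
    ∀ (Φ : Finset α) (w : α → ℝ), Inv op S F δ Φ w → (∀ s, w s ≤ η * ∑ s ∈ Φ, w s) → p Φ w

theorem Inv.mono {op : α → α → α} {S : Set α} {F G : Finset α} {δ ε : ℝ} {Φ : Finset α} {w : α → ℝ}
    (h : Inv op S G δ Φ w) (hFG : F ⊆ G) (hδ : δ ≤ ε) : Inv op S F ε Φ w :=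
  ⟨h.sub, h.nn, h.out, h.pos, fun g hg => (h.inv g (hFG hg)).trans (mul_le_mul_of_nonneg_right hδ h.pos.le)⟩

theorem Ev.mono {op : α → α → α} {S : Set α} {p q : Finset α → (α → ℝ) → Prop} (h : ∀ Φ w, p Φ w → q Φ w)
    (hp : Ev op S p) : Ev op S q := by
  obtain ⟨F, δ, η, hF, hδ, hη, H⟩ := hp
  exact ⟨F, δ, η, hF, hδ, hη, fun Φ w h1 h2 => h Φ w (H Φ w h1 h2)⟩

theorem Ev.triv {op : α → α → α} {S : Set α} {p : Finset α → (α → ℝ) → Prop} (h : ∀ Φ w, p Φ w) :
    Ev op S p :=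
  ⟨∅, 1, 1, fun g hg => absurd hg (Finset.notMem_empty g), one_pos, one_pos, fun Φ w _ _ => h Φ w⟩

theorem Ev.all {op : α → α → α} {S : Set α} {ι : Type} [Finite ι] {p : ι → Finset α → (α → ℝ) → Prop}
    (h : ∀ i, Ev op S (p i)) : Ev op S (fun Φ w => ∀ i, p i Φ w) := by
  classical
  have := Fintype.ofFinite ι
  rcases isEmpty_or_nonempty ι with he | he
  · exact Ev.triv fun Φ w i => (he.false i).elim
  choose F δ η hF hδ hη H using h
  obtain ⟨i₁, hi₁⟩ := Finite.exists_min δ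
  obtain ⟨i₂, hi₂⟩ := Finite.exists_min η
  refine ⟨Finset.univ.biUnion F, δ i₁, η i₂, ?_, hδ i₁, hη i₂, fun Φ w h1 h2 i =>
    H i Φ w (h1.mono ?_ (hi₁ i)) fun s => (h2 s).trans (mul_le_mul_of_nonneg_right (hi₂ i) h1.pos.le)⟩
  · intro g hg
    obtain ⟨i, _, hi⟩ := Finset.mem_biUnion.1 hg
    exact hF i g hi
  · exact Finset.subset_biUnion_of_mem F (Finset.mem_univ i)

theorem Ev.and {op : α → α → α} {S : Set α} {p q : Finset α → (α → ℝ) → Prop} (hp : Ev op S p)
    (hq : Ev op S q) : Ev op S (fun Φ w => p Φ w ∧ q Φ w) := by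
  have h := Ev.all (op := op) (S := S) (ι := Bool) (p := fun b => if b then p else q) (fun b => by
    cases b
    · exact hq
    · exact hp)
  exact h.mono fun Φ w hΦ => ⟨hΦ true, hΦ false⟩

/-- the greedy step for `Ex` -/
theorem ex_succ (op : α → α → α) (S : Set α)
    (hcan : ∀ s ∈ S, ∀ s' ∈ S, ∀ g ∈ S, op s g = op s' g → s = s')
    (typ : α → R) (mul : R → R → R) (htyp : ∀ s t, typ (op s t) = mul (typ s) (typ t))
    (P : α → Prop) (u : ℕ → R) (r : ℕ) (hr : Ex op S typ P u r) (c : R)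
    (ε κ : ℝ) (hε : 0 < ε) (hκ : 0 < κ)
    (hbad : ∀ (F : Finset α) (δ η : ℝ), (∀ g ∈ F, g ∈ S) → 0 < δ → 0 < η → ∃ (Φ : Finset α) (w : α → ℝ),
      Inv op S F δ Φ w ∧ (∀ s, w s ≤ η * ∑ s ∈ Φ, w s) ∧ κ * ∑ s ∈ Φ, w s ≤ ms Φ w (fun s => typ s = c) ∧
      ∑ i ∈ range r, ms Φ w (fun s => mul (typ s) (u i) = c ∧ P s) ≤ (1 - ε) * ms Φ w (fun s => typ s = c)) :
    Ex op S typ P (fun i => if i < r then u i else c) (r + 1) := by
  have key : ∀ n : ℕ, 0 < n → ∃ T, Chn op S typ P (fun i => if i < r then u i else c) (r + 1) n T := by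
    intro n hn
    obtain ⟨N, hN⟩ := exists_nat_gt (2 * n / ε)
    have hnN : (n : ℝ) ≤ ε / 2 * N := by
      rw [div_lt_iff₀ hε] at hN
      linarith
    have hNpos : 0 < N := by
      rcases Nat.eq_zero_or_pos N with h | h
      · rw [h] at hnN
        have : (0 : ℝ) < n := by exact_mod_cast hn
        simp only [Nat.cast_zero, mul_zero] at hnN
        linarith
      · exact h
    obtain ⟨T, hT⟩ := hr N
    obtain ⟨Y, hYcard, hY0, hYc, T', hT'⟩ := step op S hcan typ mul htyp P r T u c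
      (fun i hi => by rw [← Finset.card_pos]; exact lt_of_lt_of_le hNpos (hT.size i hi))
      hT.sub hT.cls ε κ hε hκ hbad n hn
    refine ⟨fun i => if i < r then T' i else Y, ?_, ?_, ?_, ?_⟩
    · intro i hi
      by_cases hir : i < r
      · simp only [hir, if_true]
        have h1 := (hT' i hir).2.1
        have h2 : (N : ℝ) ≤ (T i).card := by exact_mod_cast hT.size i hir
        have h3 : (n : ℝ) ≤ (T' i).card := by
          refine hnN.trans (le_trans ?_ h1)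
          gcongr
        exact_mod_cast h3
      · simp only [hir, if_false]
        rw [hYcard]
    · intro i hi t ht
      by_cases hir : i < r
      · simp only [hir, if_true] at ht
        exact hT.sub i hir t ((hT' i hir).1 ht)
      · simp only [hir, if_false] at ht
        exact hY0 t ht
    · intro i hi t ht
      by_cases hir : i < r
      · simp only [hir, if_true] at ht ⊢
        exact hT.cls i hir t ((hT' i hir).1 ht)
      · simp only [hir, if_false] at ht ⊢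
        exact hYc t ht
    · intro i j hij hj t ht t' ht'
      have hir : i < r := by omega
      simp only [hir, if_true] at ht
      by_cases hjr : j < r
      · simp only [hjr, if_true] at ht'
        exact hT.bad i j hij hjr t ((hT' i hir).1 ht) t' ((hT' j hjr).1 ht')
      · simp only [hjr, if_false] at ht'
        exact (hT' i hir).2.2 t ht t' ht'
  intro n
  obtain ⟨T, hT⟩ := key (n + 1) n.succ_pos
  exact ⟨T, fun i hi => (Nat.le_succ n).trans (hT.size i hi), hT.sub, hT.cls, hT.bad⟩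

/-- if a group of class `c` cannot be added, there are many elements of `P` -/
theorem dens_of_not (op : α → α → α) (S : Set α)
    (hcan : ∀ s ∈ S, ∀ s' ∈ S, ∀ g ∈ S, op s g = op s' g → s = s')
    (typ : α → R) (mul : R → R → R) (htyp : ∀ s t, typ (op s t) = mul (typ s) (typ t))
    (P : α → Prop) (u : ℕ → R) (r : ℕ) (hr : Ex op S typ P u r) (c : R)
    (hno : ¬ Ex op S typ P (fun i => if i < r then u i else c) (r + 1)) (ε κ : ℝ) (hε : 0 < ε) (hκ : 0 < κ) :
    Ev op S (fun Φ w => κ * ∑ s ∈ Φ, w s ≤ ms Φ w (fun s => typ s = c) →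
      (1 - ε) * ms Φ w (fun s => typ s = c) ≤ ∑ i ∈ range r, ms Φ w (fun s => mul (typ s) (u i) = c ∧ P s)) := by
  by_contra hcon
  unfold Ev at hcon
  push Not at hcon
  apply hno
  refine ex_succ op S hcan typ mul htyp P u r hr c ε κ hε hκ fun F δ η hF hδ hη => ?_
  obtain ⟨Φ, w, h1, h2, h3, h⟩ := hcon F δ η hF hδ hη
  exact ⟨Φ, w, h1, h2, h3, h.le⟩

end Pool.Agent.AmW
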