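import Pool.Agent.AmW.Dens
import Pool.Agent.AmS.Main

/-! INVARIANT WEIGHTS (helper35): the theorem. -/

set_option autoImplicit false

namespace Pool.Agent.AmW

open Finset Pool.Agent.SL Pool.Agent.AmS

/-- sufficiently invariant and sufficiently spread weights -/
theorem main_ev (S : Set (ℤ × ℕ)) (hS : ∀ f ∈ S, Adm f) (hne : S.Nonempty) (ε : ℝ) (hε : 0 < ε) :
    Ev AmS.cmp S (fun Φ w => (1 / 3 - ε) * ∑ s ∈ Φ, w s ≤ ms Φ w GdP) := by
  classical
  obtain ⟨K, hK, hD⟩ := Pool.Agent.PolD.dhlg4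
  have hcan : ∀ s ∈ S, ∀ s' ∈ S, ∀ g ∈ S, AmS.cmp s g = AmS.cmp s' g → s = s' :=
    fun s _ s' _ g hg h => cmp_can s s' g (hS g hg) h
  by_cases h3 : ∃ s₀ ∈ S, 3 ∣ s₀.2
  · obtain ⟨s₀, hs₀, hs₀3⟩ := h3
    refine third_const AmS.cmp S hcan (fun f => decide (3 ∣ f.2)) (fun s t => ?_) s₀ hs₀ (by simpa using hs₀3) GdP
      ?_ ε hε
    · simp only [AmS.cmp]
      rw [← Bool.decide_or]
      exact decide_eq_decide.2 (Nat.Prime.dvd_mul Nat.prime_three)
    · refine no_four K hK hD S hS _ _ fun T _ hTS hT3 _ => ⟨0, fun i hi t ht hd => ?_⟩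
      have h4 : 3 ∣ t.2 := by simpa using hT3 i hi t ht
      have h5 : (3 : ℤ) ∣ (t.2 : ℤ) := by exact_mod_cast h4
      have h6 : (3 : ℤ) ∣ t.1 := by simpa using hd
      have h7 := Int.dvd_gcd h6 h5
      rw [(hS t (hTS i hi t ht)).2.1] at h7
      exact absurd h7 (by norm_num)
  · push Not at h3
    refine third_perm AmS.cmp S hcan hne (fun f => ((f.1 : ZMod 3), (f.2 : ZMod 3))) (fun s t => ?_)
      (fun s hs => ?_) GdP (fun u hu => ?_) ε hε
    · simp only [AmS.cmp, mulR]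
      push_cast
      rfl
    · show ((s.2 : ℕ) : ZMod 3) ≠ 0
      intro h
      exact h3 s hs ((ZMod.natCast_eq_zero_iff _ _).1 h)
    · obtain ⟨z, hz⟩ := hu
      refine no_four K hK hD S hS _ _ fun T _ hTS hT3 _ => ⟨(z.val : ℤ), fun i hi t ht hd => ?_⟩
      refine hz i hi ?_
      have h4 : ((t.1 : ZMod 3), (t.2 : ZMod 3)) = u i := hT3 i hi t ht
      rw [← h4]
      have h5 := (ZMod.intCast_zmod_eq_zero_iff_dvd (t.1 + t.2 * (z.val : ℤ)) 3).2 (by exact_mod_cast hd)
      push_cast at h5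
      rw [ZMod.natCast_zmod_val] at h5
      exact h5

theorem inv_le {S : Set (ℤ × ℕ)} {F : Finset (ℤ × ℕ)} {δ : ℝ} {Φ : Finset (ℤ × ℕ)} {w : ℤ × ℕ → ℝ}
    (hΦ : Inv AmS.cmp S F δ Φ w) (hδ : 0 ≤ δ) (g : ℤ × ℕ) (hg : g ∈ F) (s : ℤ × ℕ) :
    w s ≤ w (AmS.cmp s g) + δ * ∑ s ∈ Φ, w s := by
  by_cases hs : s ∈ Φ
  · have h1 := hΦ.inv g hg
    have h2 := Finset.single_le_sum (f := fun s => max (w s - w (AmS.cmp s g)) 0) (fun _ _ => le_max_right _ _) hs
    have h3 := le_max_left (w s - w (AmS.cmp s g)) 0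
    linarith
  · rw [hΦ.out s hs]
    have h1 := hΦ.nn (AmS.cmp s g)
    have h2 := mul_nonneg hδ hΦ.pos.le
    linarith

/-- **The theorem on invariant weights.** -/
theorem main (S : Set (ℤ × ℕ)) (hS : ∀ f ∈ S, Adm f) (ε : ℝ) (hε : 0 < ε) :
    ∃ (F : Finset (ℤ × ℕ)) (δ : ℝ), (∀ g ∈ F, g ∈ S) ∧ 0 < δ ∧ ∀ (Φ : Finset (ℤ × ℕ)) (w : ℤ × ℕ → ℝ),
      Inv AmS.cmp S F δ Φ w → (1 / 3 - ε) * ∑ s ∈ Φ, w s ≤ ms Φ w GdP := by
  classical
  rcases S.finite_or_infinite with hfin | hinf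
  · -- finite `S`: almost all mass is on the identity
    obtain ⟨n, hn⟩ : ∃ n : ℕ, n = hfin.toFinset.card := ⟨_, rfl⟩
    refine ⟨hfin.toFinset, 1 / (2 * (n + 1) ^ 2), fun g hg => hfin.mem_toFinset.1 hg, by positivity,
      fun Φ w hΦ => ?_⟩
    obtain ⟨δ, hδ⟩ : ∃ δ : ℝ, δ = 1 / (2 * ((n : ℝ) + 1) ^ 2) := ⟨_, rfl⟩
    have hδ0 : 0 < δ := by rw [hδ]; positivity
    rw [← hδ] at hΦ
    have htot := hΦ.pos
    have hΦn : Φ.card ≤ n := by
      rw [hn]
      exact Finset.card_le_card fun s hs => hfin.mem_toFinset.2 (hΦ.sub s hs)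
    -- an element which is not the identity has small mass
    have hsmall : ∀ s ∈ Φ, s ≠ (0, 1) → w s ≤ n * (δ * ∑ s ∈ Φ, w s) := by
      intro s hs hs1
      have htel : ∀ k : ℕ, w s ≤ w (pw s k) + k * (δ * ∑ s ∈ Φ, w s) := by
        intro k
        induction k with
        | zero => simp [pw]
        | succ k ih =>
          have h1 := inv_le hΦ hδ0.le s (hfin.mem_toFinset.2 (hΦ.sub s hs)) (pw s k)
          have h2 : pw s (k + 1) = AmS.cmp (pw s k) s := rfl
          rw [h2]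
          push_cast
          linarith
      obtain ⟨k, hk, hkΦ⟩ : ∃ k ≤ n, pw s k ∉ Φ := by
        by_contra hcon
        push Not at hcon
        have h1 := Finset.card_le_card_of_injOn (s := range (n + 1)) (t := Φ) (pw s)
          (fun k hk => hcon k (by
            have := Finset.mem_range.1 (Finset.mem_coe.1 hk)
            omega))
          (fun a _ b _ hab => pw_inj s (hS s (hΦ.sub s hs)) hs1 hab)
        rw [Finset.card_range] at h1
        omega
      have h1 := htel k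
      rw [hΦ.out _ hkΦ, zero_add] at h1
      refine h1.trans (mul_le_mul_of_nonneg_right (by exact_mod_cast hk) (by positivity))
    have h1 : ∑ s ∈ Φ.filter (fun s => ¬ GdP s), w s ≤ n * (n * (δ * ∑ s ∈ Φ, w s)) := by
      have h2 : ∑ s ∈ Φ.filter (fun s => ¬ GdP s), w s ≤
          (Φ.filter (fun s => ¬ GdP s)).card • (n * (δ * ∑ s ∈ Φ, w s)) := by
        refine Finset.sum_le_card_nsmul _ _ _ fun s hs => ?_
        rw [Finset.mem_filter] at hs
        refine hsmall s hs.1 fun h => hs.2 ?_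
        rw [h]
        exact gdP_one
      refine h2.trans ?_
      rw [nsmul_eq_mul]
      refine mul_le_mul_of_nonneg_right ?_ (by positivity)
      exact_mod_cast (Finset.card_filter_le _ _).trans hΦn
    have h2 : (n : ℝ) * (n * (δ * ∑ s ∈ Φ, w s)) ≤ 1 / 2 * ∑ s ∈ Φ, w s := by
      have h3 : (n : ℝ) * n * δ ≤ 1 / 2 := by
        rw [hδ, mul_one_div, div_le_iff₀ (by positivity)]
        have : (0 : ℝ) ≤ n := Nat.cast_nonneg _
        nlinarith
      calc (n : ℝ) * (n * (δ * ∑ s ∈ Φ, w s)) = (n * n * δ) * ∑ s ∈ Φ, w s := by ring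
        _ ≤ _ := mul_le_mul_of_nonneg_right h3 htot.le
    have h3 := Finset.sum_filter_add_sum_filter_not Φ GdP w
    rw [ms_eq]
    nlinarith
  · -- infinite `S`
    obtain ⟨F, δ, η, hF, hδ, hη, H⟩ := main_ev S hS hinf.nonempty ε hε
    obtain ⟨N, hN⟩ := exists_nat_gt (2 / η)
    obtain ⟨A, hAS, hAc⟩ := hinf.exists_subset_card_eq N
    refine ⟨F ∪ A, min δ (η / 2), ?_, lt_min hδ (by positivity), fun Φ w hΦ => H Φ w
      (hΦ.mono Finset.subset_union_left (min_le_left _ _)) fun s => ?_⟩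
    · intro g hg
      rcases Finset.mem_union.1 hg with h1 | h1
      · exact hF g h1
      · exact hAS h1
    · by_contra hlt
      push Not at hlt
      obtain ⟨tot, htot⟩ : ∃ tot : ℝ, tot = ∑ s ∈ Φ, w s := ⟨_, rfl⟩
      have htot0 : 0 < tot := by rw [htot]; exact hΦ.pos
      rw [← htot] at hlt
      have hs : s ∈ Φ := by
        by_contra hcon
        rw [hΦ.out s hcon] at hlt
        have := mul_pos hη htot0
        linarith
      have h1 : ∀ g ∈ A, η / 2 * tot ≤ w (AmS.cmp s g) := by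
        intro g hg
        have h2 := inv_le hΦ (lt_min hδ (by positivity)).le g (Finset.mem_union_right _ hg) s
        rw [← htot] at h2
        have h3 : min δ (η / 2) * tot ≤ η / 2 * tot := mul_le_mul_of_nonneg_right (min_le_right _ _) htot0.le
        linarith
      have h2 : ∑ g ∈ A, w (AmS.cmp s g) ≤ tot := by
        have h3 : ∑ g ∈ A, w (AmS.cmp s g) = ∑ y ∈ A.image (fun g => AmS.cmp s g), w y := by
          rw [Finset.sum_image]
          intro a _ b _ h
          exact cmp_can_left _ _ s (hS s (hΦ.sub s hs)) h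
        rw [h3, htot]
        have h4 : A.image (fun g => AmS.cmp s g) ⊆ Φ := by
          intro y hy
          obtain ⟨g, hg, rfl⟩ := Finset.mem_image.1 hy
          by_contra hcon
          have h5 := h1 g hg
          rw [hΦ.out _ hcon] at h5
          have := mul_pos hη htot0
          linarith
        exact Finset.sum_le_sum_of_subset_of_nonneg h4 fun y _ _ => hΦ.nn y
      have h3 : (N : ℝ) * (η / 2 * tot) ≤ tot := by
        have h4 := Finset.card_nsmul_le_sum A (fun g => w (AmS.cmp s g)) _ h1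
        rw [hAc, nsmul_eq_mul] at h4
        exact h4.trans h2
      have h4 : (2 : ℝ) < N * η := by rwa [div_lt_iff₀ hη] at hN
      nlinarith

end Pool.Agent.AmW
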